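import Pool.Agent.STE.Main

/-!
# Designs appear in the random hypergraph process exactly when the last facet is covered

For every fixed `k ≥ 3`, with probability tending to one, the first time at which the random
`k`-uniform hypergraph process on `n` vertices contains (with multiplicities) a
`(k-1)-(n,k,lam)` design for some `lam ≥ 1`, i.e. a fractional Steiner system, is the first time at
which every facet (set of `k - 1` vertices) is covered.

Proof: linear programming duality reduces the existence of a design to the positivity of the sum
of every function on the facets all of whose edge sums are nonnegative. The inclusion matrix is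
stable in the `L^1` norm; the facets that could be responsible for a large negative part are rare
at every dyadic scale, by union bounds over discretised functions; the facets of small degree are
far apart and are removed one by one.
-/

set_option autoImplicit false

namespace Pool.Agent.Results.MP_744c66_pr.LambdaDesignHittingTime

open Finset Filter
open scoped Classical
open Pool.Agent.STE

/-! Sanity checks: a Steiner system is a design with `lam = 1`, and designs cover all facets. -/

/-- `S` is a Steiner system: every facet is in exactly one member of `S` -/
def IsSteiner (k : ℕ) {n : ℕ} (S : Set (Finset (Fin n))) : Prop :=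
  (∀ e ∈ S, e.card = k) ∧ ∀ f : Finset (Fin n), f.card = k - 1 → ∃! e, e ∈ S ∧ f ⊆ e

lemma hasDesign_of_steiner (k : ℕ) {n : ℕ} (S H : Set (Finset (Fin n))) (hS : IsSteiner k S)
    (hSH : S ⊆ H) : HasDesign k H := by
  refine ⟨1, le_rfl, fun e => if e ∈ S then 1 else 0, ?_, ?_⟩
  · intro e he
    have : e ∉ S := fun h => he (hSH h)
    simp [this]
  · intro f hf
    obtain ⟨e, ⟨he, hfe⟩, hu⟩ := hS.2 f hf
    rw [Finset.sum_eq_single e]
    · simp [he]
    · intro b hb hne
      have hfb : f ⊆ b := (Finset.mem_filter.mp hb).2
      have : b ∉ S := fun h => hne (hu b ⟨h, hfb⟩)
      simp [this]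
    · intro h
      exact absurd (Finset.mem_filter.mpr ⟨Finset.mem_univ _, hfe⟩) h

lemma covers_of_hasDesign (k : ℕ) (hk : 2 ≤ k) {n : ℕ} (H : Set (Finset (Fin n)))
    (h : HasDesign k H) : Covers k H := by
  obtain ⟨r, rfl⟩ := Nat.exists_eq_add_of_le' hk
  exact cov_of_des H h

/-- For every `k ≥ 3`, asymptotically almost surely the first time `m` at which all facets are
covered by `H_m` is the first time at which `H_m` supports a design. -/
theorem result (k : ℕ) (hk : 3 ≤ k) :
    Tendsto (fun n : ℕ => ((Finset.univ.filter (fun σ : Ord n k =>
      ∃ m, IsLeast {m | Covers k (Hm σ m)} m ∧ IsLeast {m | HasDesign k (Hm σ m)} m)).card : ℝ) /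
        (Fintype.card (Ord n k) : ℝ)) atTop (nhds 1) := by
  obtain ⟨r, rfl⟩ := Nat.exists_eq_add_of_le' (show 2 ≤ k by omega)
  exact main r (by omega)

end Pool.Agent.Results.MP_744c66_pr.LambdaDesignHittingTime
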