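import Pool.Agent.STI.Main2

/-!
# The lattice of the random hypergraph process and signed Steiner systems

For every fixed `k ≥ 3`, with probability tending to one, exactly at the first time at which every
facet (set of `k - 1` vertices) is covered, the edges of the random `k`-uniform hypergraph process
generate the full lattice: every integer function on the facets that satisfies the divisibility
conditions is the sum of the edges of `H_m` with some (positive or negative) integer multiplicities.
In particular, for admissible `n`, signed Steiner systems appear exactly at this time.

Proof: a chain of lattices generated by sparse vectors is short (subset sums), so after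
`ε n^(k-1) log n` steps most edges of the complete hypergraph are in the lattice; the same argument
in the links of the sets `I` of `1, 2, …, k - 2` vertices (rounds, with octahedral relations between
the edges around `I`) makes most edges through every such `I` lattice elements; then all edges are
determined modulo the lattice by a function on the facets, whose support consists of facets that
are almost uncovered, and no two of them are adjacent shortly before the covering time. The
functions represented by the complete hypergraph are determined as in the theorem of Graver and
Jurkat and of Wilson.
-/

set_option autoImplicit false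

namespace Pool.Agent.Results.MP_744c66_pr.LatticeHittingTime

open Finset Filter
open scoped Classical
open Pool.Agent.STE Pool.Agent.STI

/-! Sanity check: the indicator function of a Steiner system is a signed Steiner system. -/

/-- `S` is a Steiner system: every facet is in exactly one member of `S` -/
def IsSteiner (k : ℕ) {n : ℕ} (S : Set (Finset (Fin n))) : Prop :=
  (∀ e ∈ S, e.card = k) ∧ ∀ f : Finset (Fin n), f.card = k - 1 → ∃! e, e ∈ S ∧ f ⊆ e

lemma sst_of_steiner (k : ℕ) {n : ℕ} (S H : Set (Finset (Fin n))) (hS : IsSteiner k S)
    (hSH : S ⊆ H) : SSt k H := by
  refine ⟨fun e => if e ∈ S then 1 else 0, ?_, ?_⟩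
  · intro e he
    have : e ∉ S := fun h => he (hSH h)
    simp [this]
  · intro f hf
    obtain ⟨e, ⟨he, hfe⟩, hu⟩ := hS.2 f hf
    rw [Finset.sum_eq_single e]
    · simp [he]
    · intro b hb hne
      have hfb : f ⊆ b := (Finset.mem_filter.mp hb).2
      have : b ∉ S := fun h => hne (hu b ⟨h, hfb⟩)
      simp [this]
    · intro h
      exact absurd (Finset.mem_filter.mpr ⟨Finset.mem_univ _, hfe⟩) h

/-- For every `k ≥ 3`, asymptotically almost surely the first time `m` at which all facets are
covered by `H_m` is the first time at which `H_m` represents all functions that satisfy the
divisibility conditions, and, if `n` is admissible, the first time at which `H_m` supports a signed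
Steiner system. -/
theorem result (k : ℕ) (hk : 3 ≤ k) :
    Tendsto (fun n : ℕ => ((Finset.univ.filter (fun σ : Ord n k =>
      ∃ m, IsLeast {m | Covers k (Hm σ m)} m ∧ IsLeast {m | Universal k (Hm σ m)} m ∧
        (Adm k n → IsLeast {m | SSt k (Hm σ m)} m))).card : ℝ) /
        (Fintype.card (Ord n k) : ℝ)) atTop (nhds 1) := by
  obtain ⟨r, rfl⟩ := Nat.exists_eq_add_of_le' (show 2 ≤ k by omega)
  exact main2 r (by omega)

end Pool.Agent.Results.MP_744c66_pr.LatticeHittingTime
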